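import Pool.Agent.Y461.LS.Defs

/-!
# Ladder systems on non-reflecting stationary sets: disjoint refinements (helper461)
-/

set_option autoImplicit false

open Set Filter Topology Cardinal

namespace Pool.Agent.Y461.LS

/-- Small sets of ladders can be made disjoint by removing finite sets. -/
theorem disj {Ω : Type} [LinearOrder Ω] [WellFoundedLT Ω] {E : Set Ω} (hNR : NonReflecting E)
    (A : Ω → Set Ω) (h0 : ∀ α, α ∉ E → A α = ∅) (h1 : ∀ α, ∀ β ∈ A α, β < α)
    (h2 : ∀ α, ∀ x < α, (A α ∩ Iic x).Finite) (δ : Ω) :
    ∃ F : Ω → Set Ω, (∀ α, (F α).Finite) ∧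
      ∀ α < δ, ∀ α' < δ, α ≠ α' → Disjoint (A α \ F α) (A α' \ F α') := by
  classical
  induction δ using WellFoundedLT.induction with
  | ind δ ih =>
  by_cases hp : ∃ γ, γ < δ ∧ ∀ x < δ, x ≤ γ
  · obtain ⟨γ, hγ, hmax⟩ := hp
    obtain ⟨F, hF, hd⟩ := ih γ hγ
    refine ⟨fun α => if α < γ then F α ∪ (A γ ∩ Iic α) else ∅, ?_, ?_⟩
    · intro α
      by_cases h : α < γ
      · simp only [if_pos h]
        exact (hF α).union (h2 γ α h)
      · simp only [if_neg h]
        exact finite_empty
    · have key : ∀ α < γ, Disjoint (A α \ (F α ∪ (A γ ∩ Iic α))) (A γ \ ∅) := by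
        intro α hα
        rw [Set.disjoint_left]
        rintro β ⟨hβ, hn⟩ ⟨hβ', -⟩
        exact hn (Or.inr ⟨hβ', (h1 α β hβ).le⟩)
      intro α hα α' hα' hne
      rcases lt_or_eq_of_le (hmax α hα) with h | h
      · rcases lt_or_eq_of_le (hmax α' hα') with h' | h'
        · simp only [if_pos h, if_pos h']
          exact (hd α h α' h' hne).mono (sdiff_subset_sdiff_right subset_union_left)
            (sdiff_subset_sdiff_right subset_union_left)
        · subst h'
          simp only [if_pos h, lt_irrefl, if_false]
          exact key α h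
      · subst h
        have h' : α' < α := lt_of_le_of_ne (hmax α' hα') (Ne.symm hne)
        simp only [if_pos h', lt_irrefl, if_false]
        exact (key α' h').symm
  · by_cases hb : ∃ x, x < δ
    · have hlim : ∀ x < δ, ∃ y, x < y ∧ y < δ := by
        intro x hx
        by_contra hcon
        push Not at hcon
        exact hp ⟨x, hx, fun y hy => not_lt.mp fun hxy => absurd hy (not_lt.mpr (hcon y hxy))⟩
      obtain ⟨C, ⟨hC1, hC2, hC3⟩, hCE⟩ := hNR δ hb hlim
      choose F hF hd using ih
      have hn : ∀ α, ∃ n, α < δ → n ∈ C ∧ α < n ∧ ∀ y ∈ C, α < y → n ≤ y := by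
        intro α
        by_cases h : α < δ
        · obtain ⟨y, hy, hy'⟩ := hC2 α h
          have hne : {y | y ∈ C ∧ α < y}.Nonempty := ⟨y, hy, hy'⟩
          refine ⟨wellFounded_lt.min _ hne, fun _ => ⟨(wellFounded_lt.min_mem _ hne).1,
            (wellFounded_lt.min_mem _ hne).2, fun z hz hz' => ?_⟩⟩
          exact not_lt.mp (wellFounded_lt.not_lt_min _ (show z ∈ {y | y ∈ C ∧ α < y} from ⟨hz, hz'⟩))
        · exact ⟨α, fun h' => absurd h' h⟩
      choose n hn using hn
      have hx : ∀ α, ∃ x, α < δ → α ∈ E → (∃ y, y < α) → x < α ∧ ∀ y ∈ C, y < α → y ≤ x := by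
        intro α
        by_cases h : α < δ ∧ α ∈ E ∧ ∃ y, y < α
        · by_contra hcon
          push Not at hcon
          refine hCE α (hC3 α h.1 h.2.2 ?_) h.2.1
          intro x hx
          obtain ⟨-, -, -, h4⟩ := hcon x
          obtain ⟨y, hy, hy1, hy2⟩ := h4 hx
          exact ⟨y, hy, hy2, hy1⟩
        · exact ⟨α, fun h1 h2 h3 => absurd ⟨h1, h2, h3⟩ h⟩
      choose x hx using hx
      refine ⟨fun α => if h : n α < δ then
        (if x α < α then F (n α) h α ∪ (A α ∩ Iic (x α)) else F (n α) h α) else ∅, ?_, ?_⟩
      · intro α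
        dsimp only
        split_ifs with h h'
        · exact (hF (n α) h α).union (h2 α (x α) h')
        · exact hF (n α) h α
        · exact finite_empty
      · have main : ∀ α < δ, ∀ α' < δ, α < α' → Disjoint
            (A α \ (if h : n α < δ then
              (if x α < α then F (n α) h α ∪ (A α ∩ Iic (x α)) else F (n α) h α) else ∅))
            (A α' \ (if h : n α' < δ then
              (if x α' < α' then F (n α') h α' ∪ (A α' ∩ Iic (x α')) else F (n α') h α')
              else ∅)) := by
          intro α hα α' hα' hlt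
          by_cases hE : α ∈ E
          swap
          · rw [h0 α hE]; simp
          by_cases hE' : α' ∈ E
          swap
          · rw [h0 α' hE']; simp
          obtain ⟨a1, a2, a3⟩ := hn α hα
          obtain ⟨b1, b2, b3⟩ := hn α' hα'
          have hnα : n α < δ := hC1 _ a1
          have hnα' : n α' < δ := hC1 _ b1
          obtain ⟨c1, c2⟩ := hx α' hα' hE' ⟨α, hlt⟩
          rw [dif_pos hnα, dif_pos hnα', if_pos c1]
          by_cases hEq : n α = n α'
          · have hdd := hd (n α') hnα' α (hEq ▸ a2) α' b2 hlt.ne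
            refine hdd.mono ?_ (sdiff_subset_sdiff_right subset_union_left)
            refine sdiff_subset_sdiff_right ?_
            have : ∀ m (hm : m < δ), m = n α' → F m hm α = F (n α') hnα' α := by
              rintro m hm rfl; rfl
            rw [this (n α) hnα hEq]
            split_ifs
            · exact subset_union_left
            · exact subset_rfl
          · have hle : n α ≤ n α' := a3 _ b1 (hlt.trans b2)
            have h3 : n α ≤ α' := by
              by_contra hcon
              exact hEq (le_antisymm hle (b3 _ a1 (not_le.mp hcon)))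
            have h4 : n α ≠ α' := fun h => hCE _ a1 (h ▸ hE')
            have h5 : n α ≤ x α' := c2 _ a1 (lt_of_le_of_ne h3 h4)
            rw [Set.disjoint_left]
            rintro β ⟨hβ, -⟩ ⟨hβ', hnot⟩
            exact hnot (Or.inr ⟨hβ', ((h1 α β hβ).trans a2).le.trans h5⟩)
        intro α hα α' hα' hne
        rcases lt_or_gt_of_ne hne with h | h
        · exact main α hα α' hα' h
        · exact (main α' hα' α hα h).symm
    · refine ⟨fun _ => ∅, fun _ => finite_empty, fun α hα => absurd ⟨α, hα⟩ hb⟩

end Pool.Agent.Y461.LS
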