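import Mathlib

/-!
# Ladder systems on non-reflecting stationary sets: definitions (helper461)
-/

set_option autoImplicit false

open Set Filter Topology Cardinal

namespace Pool.Agent.Y461.LS

section
variable {Ω : Type} [LinearOrder Ω]

/-- All points of `E` are limits of strictly increasing sequences (points of cofinality `ω`). -/
def CofOmega (E : Set Ω) : Prop :=
  ∀ δ ∈ E, ∃ s : ℕ → Ω, StrictMono s ∧ (∀ n, s n < δ) ∧ ∀ x < δ, ∃ n, x < s n

/-- `E` is stationary: for every `h : Ω → Ω` some `δ` in `E` is closed under `h`. -/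
def Stationary (E : Set Ω) : Prop := ∀ h : Ω → Ω, ∃ δ ∈ E, ∀ x < δ, h x < δ

/-- `C` is a closed unbounded subset of the initial segment of the points below `δ`. -/
def ClubBelow (C : Set Ω) (δ : Ω) : Prop :=
  (∀ x ∈ C, x < δ) ∧ (∀ x < δ, ∃ y ∈ C, x < y) ∧
    ∀ β < δ, (∃ x, x < β) → (∀ x < β, ∃ y ∈ C, x < y ∧ y < β) → β ∈ C

/-- `E` does not reflect: below every limit point `δ` there is a closed unbounded set which is
disjoint from `E` (this is automatic if `δ` has cofinality `ω`). -/
def NonReflecting (E : Set Ω) : Prop :=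
  ∀ δ, (∃ x, x < δ) → (∀ x < δ, ∃ y, x < y ∧ y < δ) → ∃ C, ClubBelow C δ ∧ ∀ x ∈ C, x ∉ E

/-- Every subset of `Ω` of cardinality at most `μ` has a strict upper bound. -/
def SmallBounded (Ω : Type) [LinearOrder Ω] (μ : Cardinal.{0}) : Prop :=
  ∀ S : Set Ω, #S ≤ μ → ∃ b, ∀ x ∈ S, x < b

end

/-- `X` is Eberlein compact (for compact `X`): it embeds in some `c₀(Γ)` with the topology of
pointwise convergence, as a bounded subset. -/
def Eberlein (X : Type) [TopologicalSpace X] : Prop :=
  ∃ (Γ : Type) (f : X → (Γ → ℝ)), Continuous f ∧ Function.Injective f ∧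
    (∀ x, Tendsto (f x) cofinite (𝓝 0)) ∧ ∃ M : ℝ, ∀ x γ, |f x γ| ≤ M

/-- `X` is Corson compact (for compact `X`): it embeds in some `ℝ^Γ` such that all points have
countable supports. -/
def Corson (X : Type) [TopologicalSpace X] : Prop :=
  ∃ (Γ : Type) (f : X → (Γ → ℝ)), IsEmbedding f ∧ ∀ x, (Function.support (f x)).Countable

end Pool.Agent.Y461.LS
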