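import Pool.Agent.Y461.LS.Space

/-!
# A compact space which is not Corson compact and has Eberlein compact small closures (helper461)
-/

set_option autoImplicit false

open Set Filter Topology Cardinal

namespace Pool.Agent.Y461.LS

lemma countable_support_of_tendsto {Γ : Type} {g : Γ → ℝ} (h : Tendsto g cofinite (𝓝 0)) :
    (Function.support g).Countable := by
  have hsub : Function.support g ⊆ ⋃ n : ℕ, {γ | 1 / ((n : ℝ) + 1) ≤ |g γ|} := by
    intro γ hγ
    obtain ⟨n, hn⟩ := exists_nat_one_div_lt (abs_pos.mpr hγ)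
    exact mem_iUnion.mpr ⟨n, hn.le⟩
  refine (countable_iUnion fun n => ?_).mono hsub
  have hpos : (0 : ℝ) < 1 / ((n : ℝ) + 1) := by positivity
  have h1 := (Metric.tendsto_nhds.mp h) _ hpos
  rw [Filter.eventually_cofinite] at h1
  refine (h1.subset ?_).countable
  intro γ hγ
  have hγ' : 1 / ((n : ℝ) + 1) ≤ |g γ| := hγ
  simp only [dist_zero_right, Real.norm_eq_abs, not_lt, Set.mem_ofPred_eq]
  exact hγ'

theorem Eberlein.weak {X : Type} [TopologicalSpace X] (h : Eberlein X) :
    ∃ (Γ : Type) (f : X → (Γ → ℝ)), Continuous f ∧ Function.Injective f ∧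
      ∀ x, (Function.support (f x)).Countable := by
  obtain ⟨Γ, f, h1, h2, h3, -⟩ := h
  exact ⟨Γ, f, h1, h2, fun x => countable_support_of_tendsto (h3 x)⟩

theorem Corson.weak {X : Type} [TopologicalSpace X] (h : Corson X) :
    ∃ (Γ : Type) (f : X → (Γ → ℝ)), Continuous f ∧ Function.Injective f ∧
      ∀ x, (Function.support (f x)).Countable := by
  obtain ⟨Γ, f, h1, h2⟩ := h
  exact ⟨Γ, f, h1.continuous, h1.injective, h2⟩

theorem Eberlein.corson {X : Type} [TopologicalSpace X] [CompactSpace X] (h : Eberlein X) :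
    Corson X := by
  obtain ⟨Γ, f, h1, h2, h3⟩ := h.weak
  exact ⟨Γ, f, (h1.isClosedEmbedding h2).isEmbedding, h3⟩

section
variable {Ω : Type} [LinearOrder Ω]

/-- the space is not Corson compact -/
theorem not_weak {E : Set Ω} (hS : Stationary E) (hB : SmallBounded Ω ℵ₀)
    (A : Ω → Set Ω) (h1 : ∀ α, ∀ β ∈ A α, β < α) (h2 : ∀ α, ∀ x < α, (A α ∩ Iic x).Finite)
    (h3 : ∀ α ∈ E, (A α).Infinite)
    (h : ∃ (Γ : Type) (f : K A → (Γ → ℝ)), Continuous f ∧ Function.Injective f ∧
      ∀ x, (Function.support (f x)).Countable) : False := by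
  classical
  obtain ⟨Γ, f, hf, hinj, hsup⟩ := h
  have hne : ∀ α, ∃ t, f (p A (some (Sum.inr α))) t ≠ f (p A none) t := by
    intro α
    refine Function.ne_iff.mp fun heq => ?_
    have h4 : e A (some (Sum.inr α)) = e A none := congrArg Subtype.val (hinj heq)
    have h5 : e A (some (Sum.inr α)) (Sum.inr α) = e A none (Sum.inr α) := congrFun h4 _
    rw [(e_inr_inr A α α).2 rfl, e_none] at h5
    exact absurd h5 (by simp)
  choose t ht using hne
  let g : Γ → K A → ℝ := fun s y => f y s - f (p A none) s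
  have hg : ∀ s, Continuous (g s) := fun s => ((continuous_apply s).comp hf).sub continuous_const
  have hg0 : ∀ s, g s (p A none) = 0 := fun s => sub_self _
  have hh : ∀ α, ∃ β, α ∈ E → β ∈ A α ∧ g (t α) (p A (some (Sum.inl β))) ≠ 0 := by
    intro α
    by_cases hα : α ∈ E
    · have hfin := fin_zero h1 h2 (hg (t α)) (α := α) (sub_ne_zero.mpr (ht α))
      by_contra hcon
      push Not at hcon
      refine h3 α hα (hfin.subset fun β hβ => ⟨hβ, ?_⟩)
      exact (hcon β).2 hβ
    · exact ⟨α, fun h => absurd h hα⟩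
  choose q hq using hh
  have hcount : ∀ β, {α | α ∈ E ∧ q α = β}.Countable := by
    intro β
    have hT : (Function.support (f (p A (some (Sum.inl β)))) ∪
        Function.support (f (p A none))).Countable := (hsup _).union (hsup _)
    have hsub : {α | α ∈ E ∧ q α = β} ⊆ ⋃ s ∈ Function.support (f (p A (some (Sum.inl β)))) ∪
        Function.support (f (p A none)), {α | g s (p A (some (Sum.inr α))) ≠ 0} := by
      rintro α ⟨hα, rfl⟩
      refine mem_biUnion (x := t α) ?_ (sub_ne_zero.mpr (ht α))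
      have h6 := (hq α hα).2
      by_contra hcon
      rw [mem_union, not_or, Function.notMem_support, Function.notMem_support] at hcon
      exact h6 (by show f _ _ - f _ _ = 0; rw [hcon.1, hcon.2, sub_self])
    exact (hT.biUnion fun s _ => count_nonzero (hg s) (hg0 s)).mono hsub
  have hbd : ∀ β, ∃ b, ∀ α, α ∈ E → q α = β → α < b := by
    intro β
    obtain ⟨b, hb⟩ := hB {α | α ∈ E ∧ q α = β} (le_aleph0_iff_set_countable.mpr (hcount β))
    exact ⟨b, fun α hα hq => hb α ⟨hα, hq⟩⟩
  choose H hH using hbd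
  obtain ⟨δ, hδ, hcl⟩ := hS H
  exact absurd (hH (q δ) δ hδ rfl) (not_lt.mpr (hcl _ (h1 δ _ (hq δ hδ).1)).le)

/-- the function on the space given by a coordinate -/
lemma cont_if {X : Type} [TopologicalSpace X] {S : Set X} [DecidablePred (· ∈ S)] (hS : IsClopen S) :
    Continuous fun y => if y ∈ S then (1 : ℝ) else 0 := by
  refine Continuous.if (p := fun y => y ∈ S) ?_ continuous_const continuous_const
  intro a ha
  have : frontier {x | x ∈ S} = ∅ := hS.frontier_eq
  rw [this] at ha
  exact absurd ha (Set.notMem_empty a)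

lemma clopen_coord (A : Ω → Set Ω) (i : Ω ⊕ Ω) (b : Bool) : IsClopen {y : K A | y.1 i = b} := by
  have hc : Continuous fun y : K A => y.1 i := (continuous_apply i).comp continuous_subtype_val
  exact (isClopen_discrete ({b} : Set Bool)).preimage hc

/-- closures of small sets are Eberlein compact -/
theorem eberlein_closure [WellFoundedLT Ω] {E : Set Ω} (hNR : NonReflecting E) {μ : Cardinal.{0}}
    (hμ : ℵ₀ ≤ μ) (hB : SmallBounded Ω μ)
    (A : Ω → Set Ω) (h0 : ∀ α, α ∉ E → A α = ∅) (h1 : ∀ α, ∀ β ∈ A α, β < α)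
    (h2 : ∀ α, ∀ x < α, (A α ∩ Iic x).Finite)
    (S : Set (K A)) (hS : #S ≤ μ) : Eberlein (closure S) := by
  classical
  obtain ⟨b₁, hb₁⟩ := hB {β | p A (some (Sum.inl β)) ∈ S} (by
    refine le_trans (Cardinal.mk_le_of_injective (f := fun x => (⟨p A (some (Sum.inl x.1)), x.2⟩ : S))
      ?_) hS
    intro x y hxy
    have h4 : e A (some (Sum.inl x.1)) = e A (some (Sum.inl y.1)) :=
      congrArg (fun z : S => z.1.1) hxy
    have h5 : e A (some (Sum.inl y.1)) (Sum.inl x.1) = true := by
      rw [← h4, e_inl_inl]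
    rw [e_inl_inl] at h5
    exact Subtype.ext h5)
  obtain ⟨b₂, hb₂⟩ := hB {α | p A (some (Sum.inr α)) ∈ S} (by
    refine le_trans (Cardinal.mk_le_of_injective (f := fun x => (⟨p A (some (Sum.inr x.1)), x.2⟩ : S))
      ?_) hS
    intro x y hxy
    have h4 : e A (some (Sum.inr x.1)) = e A (some (Sum.inr y.1)) :=
      congrArg (fun z : S => z.1.1) hxy
    have h5 : e A (some (Sum.inr y.1)) (Sum.inr x.1) = true := by
      rw [← h4, e_inr_inr]
    rw [e_inr_inr] at h5
    exact Subtype.ext h5)
  obtain ⟨b₃, hb₃⟩ := hB {b₁, b₂} (le_trans (le_aleph0_iff_set_countable.mpr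
    (Set.toFinite _).countable) hμ)
  obtain ⟨b, hb⟩ := hB {b₃} (le_trans (le_aleph0_iff_set_countable.mpr
    (Set.toFinite _).countable) hμ)
  have hb31 : b₁ < b₃ := hb₃ b₁ (by simp)
  have hb32 : b₂ < b₃ := hb₃ b₂ (by simp)
  have hbb : b₃ < b := hb b₃ (by simp)
  obtain ⟨F, hF, hd⟩ := disj hNR A h0 h1 h2 b
  -- points of the closure
  have hcl : ∀ α, p A (some (Sum.inr α)) ∈ closure S → α < b := by
    intro α hα
    refine lt_of_le_of_lt ?_ hbb
    by_contra hcon
    rw [not_le] at hcon
    have hfin := h2 α b₃ hcon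
    have hopen : IsOpen ({y : K A | y.1 (Sum.inr α) = true} ∩
        ⋂ β ∈ A α ∩ Iic b₃, {y : K A | y.1 (Sum.inl β) = false}) :=
      (clopen_coord A _ _).isOpen.inter
        (hfin.isOpen_biInter fun β _ => (clopen_coord A (Sum.inl β) false).isOpen)
    obtain ⟨z, ⟨hz1, hz2⟩, hzS⟩ := mem_closure_iff.mp hα _ hopen
      ⟨(e_inr_inr A α α).2 rfl, mem_iInter₂.mpr fun β _ => e_inr_inl A α β⟩
    rcases K_cases A z with rfl | ⟨β, rfl⟩ | ⟨α', rfl⟩
    · have : e A none (Sum.inr α) = true := hz1
      simp at this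
    · have h5 : e A (some (Sum.inl β)) (Sum.inr α) = true := hz1
      rw [e_inl_inr] at h5
      have h6 : β < b₃ := (hb₁ β hzS).trans hb31
      have h7 : e A (some (Sum.inl β)) (Sum.inl β) = false := mem_iInter₂.mp hz2 β ⟨h5, h6.le⟩
      rw [(e_inl_inl A β β).2 rfl] at h7
      exact absurd h7 (by simp)
    · have h5 : e A (some (Sum.inr α')) (Sum.inr α) = true := hz1
      rw [e_inr_inr] at h5
      subst h5
      exact absurd ((hb₂ α hzS).trans hb32) (not_lt.mpr hcon.le)
  -- the functions
  let V : Ω ⊕ Ω → Set (K A) := fun i => match i with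
    | Sum.inl β => {y | y.1 (Sum.inl β) = true}
    | Sum.inr α => if α < b then {y | y.1 (Sum.inr α) = true} ∩
        ⋂ β ∈ F α, {y | y.1 (Sum.inl β) = false} else ∅
  have hV : ∀ i, IsClopen (V i) := by
    rintro (β | α)
    · exact clopen_coord A _ _
    · show IsClopen (if α < b then {y : K A | y.1 (Sum.inr α) = true} ∩
        ⋂ β ∈ F α, {y : K A | y.1 (Sum.inl β) = false} else ∅)
      split_ifs
      · exact (clopen_coord A _ _).inter
          ((hF α).isClopen_biInter fun β _ => clopen_coord A (Sum.inl β) false)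
      · exact isClopen_empty
  have hVr : ∀ α (y : K A), y ∈ V (Sum.inr α) ↔
      α < b ∧ y.1 (Sum.inr α) = true ∧ ∀ β ∈ F α, y.1 (Sum.inl β) = false := by
    intro α y
    show y ∈ (if α < b then {y : K A | y.1 (Sum.inr α) = true} ∩
        ⋂ β ∈ F α, {y : K A | y.1 (Sum.inl β) = false} else ∅) ↔ _
    by_cases h : α < b
    · rw [if_pos h]
      constructor
      · rintro ⟨h5, h6⟩
        exact ⟨h, h5, fun β hβ => mem_iInter₂.mp h6 β hβ⟩
      · rintro ⟨-, h5, h6⟩
        exact ⟨h5, mem_iInter₂.mpr h6⟩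
    · rw [if_neg h]
      exact ⟨fun h5 => absurd h5 (Set.notMem_empty _), fun h5 => absurd h5.1 h⟩
  let v : K A → (Ω ⊕ Ω → ℝ) := fun y i => if y ∈ V i then 1 else 0
  have hvc : Continuous v := continuous_pi fun i => cont_if (hV i)
  have hvfin : ∀ y, {i | y ∈ V i}.Finite := by
    intro y
    rcases K_cases A y with rfl | ⟨β, rfl⟩ | ⟨α, rfl⟩
    · refine finite_empty.subset ?_
      rintro (β | α) hi
      · have : e A none (Sum.inl β) = true := hi
        simp at this
      · have : e A none (Sum.inr α) = true := ((hVr α _).1 hi).2.1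
        simp at this
    · have hsub : {α | p A (some (Sum.inl β)) ∈ V (Sum.inr α)}.Subsingleton := by
        intro α hα α' hα'
        by_contra hne
        obtain ⟨g1, g2, g3⟩ := (hVr α _).1 hα
        obtain ⟨g1', g2', g3'⟩ := (hVr α' _).1 hα'
        have k : ∀ γ, e A (some (Sum.inl β)) (Sum.inr γ) = true →
            (∀ β' ∈ F γ, e A (some (Sum.inl β)) (Sum.inl β') = false) → β ∈ A γ \ F γ := by
          intro γ k1 k2
          refine ⟨(e_inl_inr A β γ).1 k1, fun hβ => ?_⟩
          have := k2 β hβ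
          rw [(e_inl_inl A β β).2 rfl] at this
          exact absurd this (by simp)
        exact Set.disjoint_left.mp (hd α g1 α' g1' hne) (k α g2 g3) (k α' g2' g3')
      have hcov : {i | p A (some (Sum.inl β)) ∈ V i} ⊆
          {Sum.inl β} ∪ Sum.inr '' {α | p A (some (Sum.inl β)) ∈ V (Sum.inr α)} := by
        rintro (β' | α) hi
        · have : e A (some (Sum.inl β)) (Sum.inl β') = true := hi
          rw [e_inl_inl] at this
          left
          rw [this]
          rfl
        · right
          exact ⟨α, hi, rfl⟩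
      exact ((finite_singleton _).union (hsub.finite.image _)).subset hcov
    · refine (finite_singleton (Sum.inr α)).subset ?_
      rintro (β | α') hi
      · have : e A (some (Sum.inr α)) (Sum.inl β) = true := hi
        simp at this
      · have : e A (some (Sum.inr α)) (Sum.inr α') = true := ((hVr α' _).1 hi).2.1
        rw [e_inr_inr] at this
        rw [this]
        rfl
  have hvV : ∀ y z i, v y = v z → (y ∈ V i ↔ z ∈ V i) := by
    intro y z i hyz
    have h5 : (if y ∈ V i then (1 : ℝ) else 0) = if z ∈ V i then 1 else 0 := congrFun hyz i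
    by_cases hy : y ∈ V i <;> by_cases hz : z ∈ V i <;> simp_all
  have hpt : ∀ y z β, v y = v z → y = p A (some (Sum.inl β)) → z = p A (some (Sum.inl β)) := by
    rintro y z β hyz rfl
    have h4 : p A (some (Sum.inl β)) ∈ V (Sum.inl β) := (e_inl_inl A β β).2 rfl
    have h5 : z ∈ V (Sum.inl β) := (hvV _ z (Sum.inl β) hyz).1 h4
    have h6 : z.1 (Sum.inl β) = true := h5
    rcases K_cases A z with rfl | ⟨β', rfl⟩ | ⟨α, rfl⟩
    · have : e A none (Sum.inl β) = true := h6
      simp at this
    · have : e A (some (Sum.inl β')) (Sum.inl β) = true := h6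
      rw [e_inl_inl] at this
      rw [this]
    · have : e A (some (Sum.inr α)) (Sum.inl β) = true := h6
      simp at this
  have hpl : ∀ y z α, α < b → v y = v z → y = p A (some (Sum.inr α)) →
      (∀ β, z ≠ p A (some (Sum.inl β))) → z = p A (some (Sum.inr α)) := by
    rintro y z α hα hyz rfl hz
    have h4 : p A (some (Sum.inr α)) ∈ V (Sum.inr α) := (hVr α _).2
      ⟨hα, (e_inr_inr A α α).2 rfl, fun β _ => e_inr_inl A α β⟩
    have h5 : z ∈ V (Sum.inr α) := (hvV _ z (Sum.inr α) hyz).1 h4
    have h6 : z.1 (Sum.inr α) = true := ((hVr α _).1 h5).2.1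
    rcases K_cases A z with rfl | ⟨β', rfl⟩ | ⟨α', rfl⟩
    · have : e A none (Sum.inr α) = true := h6
      simp at this
    · exact absurd rfl (hz β')
    · have : e A (some (Sum.inr α')) (Sum.inr α) = true := h6
      rw [e_inr_inr] at this
      rw [this]
  refine ⟨Ω ⊕ Ω, fun y => v y.1, hvc.comp continuous_subtype_val, ?_, ?_, 1, ?_⟩
  · rintro ⟨y, hy⟩ ⟨z, hz⟩ hyz
    change v y = v z at hyz
    refine Subtype.ext ?_
    show y = z
    rcases K_cases A y with h5 | ⟨β, h5⟩ | ⟨α, h5⟩
    · rcases K_cases A z with h6 | ⟨β', h6⟩ | ⟨α', h6⟩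
      · rw [h5, h6]
      · rw [hpt z y β' hyz.symm h6, h6]
      · rw [hpl z y α' (hcl α' (h6 ▸ hz)) hyz.symm h6 (fun β hβ => by
          have h7 : e A none (Sum.inl β) = e A (some (Sum.inl β)) (Sum.inl β) := by
            have : p A none = p A (some (Sum.inl β)) := h5.symm.trans hβ
            exact congrArg (fun z : K A => z.1 (Sum.inl β)) this
          rw [(e_inl_inl A β β).2 rfl, e_none] at h7
          exact absurd h7 (by simp)), h6]
    · rw [hpt y z β hyz h5, h5]
    · rcases K_cases A z with h6 | ⟨β', h6⟩ | ⟨α', h6⟩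
      · have h7 := hpl y z α (hcl α (h5 ▸ hy)) hyz h5 (fun β hβ => by
          have h7 : e A none (Sum.inl β) = e A (some (Sum.inl β)) (Sum.inl β) := by
            have : p A none = p A (some (Sum.inl β)) := h6.symm.trans hβ
            exact congrArg (fun z : K A => z.1 (Sum.inl β)) this
          rw [(e_inl_inl A β β).2 rfl, e_none] at h7
          exact absurd h7 (by simp))
        rw [h7, h5]
      · rw [hpt z y β' hyz.symm h6, h6]
      · have h7 := hpl y z α (hcl α (h5 ▸ hy)) hyz h5 (fun β hβ => by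
          have h7 : e A (some (Sum.inr α')) (Sum.inl β) = e A (some (Sum.inl β)) (Sum.inl β) := by
            have : p A (some (Sum.inr α')) = p A (some (Sum.inl β)) := h6.symm.trans hβ
            exact congrArg (fun z : K A => z.1 (Sum.inl β)) this
          rw [(e_inl_inl A β β).2 rfl, e_inr_inl] at h7
          exact absurd h7 (by simp))
        rw [h7, h5]
  · intro y
    have h5 : ∀ᶠ i in cofinite, v y.1 i = 0 := by
      rw [Filter.eventually_cofinite]
      refine (hvfin y.1).subset ?_
      intro i hi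
      by_contra hcon
      exact hi (if_neg hcon)
    exact tendsto_const_nhds.congr' (h5.mono fun i hi => hi.symm)
  · intro y i
    show |if y.1 ∈ V i then (1 : ℝ) else 0| ≤ 1
    split_ifs <;> simp

/-- The main theorem. -/
theorem main [WellFoundedLT Ω] {E : Set Ω} (hS : Stationary E) (hE : CofOmega E)
    (hNR : NonReflecting E) {μ : Cardinal.{0}} (hμ : ℵ₀ ≤ μ) (hB : SmallBounded Ω μ) :
    ∃ (X : Type) (_ : TopologicalSpace X), CompactSpace X ∧ T2Space X ∧ ¬ Corson X ∧
      ¬ Eberlein X ∧ ∀ S : Set X, #S ≤ μ → Eberlein (closure S) := by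
  classical
  choose s hs1 hs2 hs3 using hE
  let A : Ω → Set Ω := fun α => if h : α ∈ E then range (s α h) else ∅
  have hA : ∀ α (h : α ∈ E), A α = range (s α h) := fun α h => dif_pos h
  have h0 : ∀ α, α ∉ E → A α = ∅ := fun α h => dif_neg h
  have h1 : ∀ α, ∀ β ∈ A α, β < α := by
    intro α β hβ
    by_cases h : α ∈ E
    · rw [hA α h] at hβ
      obtain ⟨n, rfl⟩ := hβ
      exact hs2 α h n
    · rw [h0 α h] at hβ
      exact absurd hβ (Set.notMem_empty _)
  have h2 : ∀ α, ∀ x < α, (A α ∩ Iic x).Finite := by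
    intro α x hx
    by_cases h : α ∈ E
    · rw [hA α h]
      obtain ⟨n, hn⟩ := hs3 α h x hx
      refine ((finite_Iio n).image (s α h)).subset ?_
      rintro _ ⟨⟨m, rfl⟩, hm⟩
      exact ⟨m, (hs1 α h).lt_iff_lt.mp (lt_of_le_of_lt hm hn), rfl⟩
    · rw [h0 α h, empty_inter]
      exact finite_empty
  have h3 : ∀ α ∈ E, (A α).Infinite := by
    intro α h
    rw [hA α h]
    exact infinite_range_of_injective (hs1 α h).injective
  have hB0 : SmallBounded Ω ℵ₀ := fun S hS => hB S (hS.trans hμ)
  have hnw := not_weak hS hB0 A h1 h2 h3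
  refine ⟨K A, inferInstance, isCompact_iff_compactSpace.mp (closed h1 h2).isCompact,
    inferInstance, fun h => hnw h.weak, fun h => hnw h.weak, ?_⟩
  exact fun S hS => eberlein_closure hNR hμ hB A h0 h1 h2 S hS

end

end Pool.Agent.Y461.LS
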