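import Pool.Agent.Y461.LS.Comb

/-!
# The one-point compactification of a ladder system space (helper461)
-/

set_option autoImplicit false

open Set Filter Topology Cardinal

namespace Pool.Agent.Y461.LS

section
variable {Ω : Type} [LinearOrder Ω]

open Classical in
/-- the points of the space as elements of the Cantor cube: `none` is the point at infinity,
`some (inl β)` the isolated point `β` and `some (inr α)` the limit of the ladder `A α` -/
noncomputable def e (A : Ω → Set Ω) : Option (Ω ⊕ Ω) → (Ω ⊕ Ω → Bool)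
  | none => fun _ => false
  | some (Sum.inl β) => Sum.elim (fun β' => decide (β' = β)) (fun α => decide (β ∈ A α))
  | some (Sum.inr α) => Sum.elim (fun _ => false) (fun α' => decide (α' = α))

variable (A : Ω → Set Ω)

@[simp] lemma e_none (i : Ω ⊕ Ω) : e A none i = false := rfl

@[simp] lemma e_inl_inl (β β' : Ω) : e A (some (Sum.inl β)) (Sum.inl β') = true ↔ β' = β := by
  simp [e]

@[simp] lemma e_inl_inr (β α : Ω) : e A (some (Sum.inl β)) (Sum.inr α) = true ↔ β ∈ A α := by
  simp [e]

@[simp] lemma e_inr_inl (α β' : Ω) : e A (some (Sum.inr α)) (Sum.inl β') = false := rfl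

@[simp] lemma e_inr_inr (α α' : Ω) : e A (some (Sum.inr α)) (Sum.inr α') = true ↔ α' = α := by
  simp [e]

lemma cyl {ι : Type} {U : Set (ι → Bool)} (hU : IsOpen U) {u : ι → Bool} (hu : u ∈ U) :
    ∃ G : Finset ι, ∀ y : ι → Bool, (∀ i ∈ G, y i = u i) → y ∈ U := by
  obtain ⟨I, w, h1, h2⟩ := isOpen_pi_iff.mp hU u hu
  exact ⟨I, fun y hy => h2 fun i hi => by rw [hy i hi]; exact (h1 i hi).2⟩

lemma cyl_open {ι : Type} (G : Finset ι) (u : ι → Bool) :
    IsOpen {y : ι → Bool | ∀ i ∈ G, y i = u i} := by
  have : {y : ι → Bool | ∀ i ∈ G, y i = u i} = ⋂ i ∈ G, {y | y i = u i} := by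
    ext y; simp
  rw [this]
  refine isOpen_biInter_finset fun i _ => ?_
  have hc : Continuous fun y : ι → Bool => y i := continuous_apply i
  exact (isOpen_discrete ({u i} : Set Bool)).preimage hc

/-- the space -/
abbrev K : Type := ↥(range (e A))

/-- its points -/
noncomputable def p (o : Option (Ω ⊕ Ω)) : K A := ⟨e A o, o, rfl⟩

lemma K_cases (y : K A) : y = p A none ∨ (∃ β, y = p A (some (Sum.inl β))) ∨
    ∃ α, y = p A (some (Sum.inr α)) := by
  obtain ⟨_, o, rfl⟩ := y
  rcases o with _ | β | α
  · exact Or.inl rfl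
  · exact Or.inr (Or.inl ⟨β, rfl⟩)
  · exact Or.inr (Or.inr ⟨α, rfl⟩)

variable {A}

lemma fin_inter (h1 : ∀ α, ∀ β ∈ A α, β < α) (h2 : ∀ α, ∀ x < α, (A α ∩ Iic x).Finite)
    {α α' : Ω} (hne : α ≠ α') : (A α ∩ A α').Finite := by
  rcases lt_or_gt_of_ne hne with h | h
  · refine (h2 α' α h).subset ?_
    rintro β ⟨hβ, hβ'⟩
    exact ⟨hβ', (h1 α β hβ).le⟩
  · refine (h2 α α' h).subset ?_
    rintro β ⟨hβ, hβ'⟩
    exact ⟨hβ, (h1 α' β hβ').le⟩

theorem closed (h1 : ∀ α, ∀ β ∈ A α, β < α) (h2 : ∀ α, ∀ x < α, (A α ∩ Iic x).Finite) :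
    IsClosed (range (e A)) := by
  classical
  refine isClosed_of_closure_subset fun u hu => ?_
  have key : ∀ G : Finset (Ω ⊕ Ω), ∃ o, ∀ i ∈ G, e A o i = u i := by
    intro G
    obtain ⟨y, hy, ⟨o, rfl⟩⟩ := mem_closure_iff.mp hu _ (cyl_open G u) (fun i _ => rfl)
    exact ⟨o, hy⟩
  by_cases hb : ∃ β, u (Sum.inl β) = true
  · obtain ⟨β, hβ⟩ := hb
    refine ⟨some (Sum.inl β), ?_⟩
    funext i
    obtain ⟨o, ho⟩ := key {Sum.inl β, i}
    have ho1 := ho (Sum.inl β) (by simp)
    have ho2 := ho i (by simp)
    rw [hβ] at ho1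
    have : o = some (Sum.inl β) := by
      rcases o with _ | β' | α'
      · simp at ho1
      · rw [e_inl_inl] at ho1
        rw [ho1]
      · simp at ho1
    rw [← this]
    exact ho2
  · push Not at hb
    have hb' : ∀ β, u (Sum.inl β) = false := fun β => by simpa using hb β
    by_cases ha : ∃ α, u (Sum.inr α) = true
    · obtain ⟨α, hα⟩ := ha
      refine ⟨some (Sum.inr α), ?_⟩
      funext i
      rcases i with β | α'
      · rw [e_inr_inl, hb']
      · by_cases hne : α' = α
        · subst hne
          rw [hα, e_inr_inr]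
        · have hf : e A (some (Sum.inr α)) (Sum.inr α') = false := by
            rw [← Bool.not_eq_true, e_inr_inr]
            exact hne
          rw [hf]
          by_contra hcon
          have ht : u (Sum.inr α') = true := by
            cases h : u (Sum.inr α') with
            | true => rfl
            | false => exact absurd h.symm hcon
          have hfin := fin_inter h1 h2 (Ne.symm hne)
          obtain ⟨o, ho⟩ := key (insert (Sum.inr α) (insert (Sum.inr α')
            (hfin.toFinset.image Sum.inl)))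
          have g1 := ho (Sum.inr α) (by simp)
          have g2 := ho (Sum.inr α') (by simp)
          rw [hα] at g1
          rw [ht] at g2
          rcases o with _ | β | γ
          · simp at g1
          · rw [e_inl_inr] at g1 g2
            have g3 := ho (Sum.inl β) (by simp [g1, g2])
            rw [hb'] at g3
            have g4 : e A (some (Sum.inl β)) (Sum.inl β) = true := (e_inl_inl A β β).2 rfl
            rw [g4] at g3
            exact absurd g3 (by simp)
          · rw [e_inr_inr] at g1 g2
            exact hne (g2.trans g1.symm)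
    · push Not at ha
      refine ⟨none, ?_⟩
      funext i
      rcases i with β | α
      · rw [e_none, hb']
      · have : u (Sum.inr α) = false := by simpa using ha α
        rw [e_none, this]

/-- a continuous function which is not zero at the limit of the ladder `A α` has only finitely
many zeros on the ladder -/
theorem fin_zero (h1 : ∀ α, ∀ β ∈ A α, β < α) (h2 : ∀ α, ∀ x < α, (A α ∩ Iic x).Finite)
    {f : K A → ℝ} (hf : Continuous f) {α : Ω} (hα : f (p A (some (Sum.inr α))) ≠ 0) :
    {β | β ∈ A α ∧ f (p A (some (Sum.inl β))) = 0}.Finite := by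
  classical
  have hU : IsOpen {y : K A | f y ≠ 0} := isOpen_ne.preimage hf
  obtain ⟨W, hW, hWU⟩ := isOpen_induced_iff.mp hU
  have hmem : e A (some (Sum.inr α)) ∈ W := by
    have : p A (some (Sum.inr α)) ∈ Subtype.val ⁻¹' W := by rw [hWU]; exact hα
    exact this
  obtain ⟨G, hG⟩ := cyl hW hmem
  have hsub : {β | β ∈ A α ∧ f (p A (some (Sum.inl β))) = 0} ⊆
      ⋃ i ∈ (G : Set (Ω ⊕ Ω)), {β | β ∈ A α ∧
        e A (some (Sum.inl β)) i ≠ e A (some (Sum.inr α)) i} := by
    rintro β ⟨hβ, hz⟩
    by_contra hcon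
    have hall : ∀ i ∈ G, e A (some (Sum.inl β)) i = e A (some (Sum.inr α)) i := by
      intro i hi
      by_contra hne
      exact hcon (mem_biUnion (show i ∈ (G : Set (Ω ⊕ Ω)) from hi) ⟨hβ, hne⟩)
    have hW' : p A (some (Sum.inl β)) ∈ Subtype.val ⁻¹' W := hG _ hall
    rw [hWU] at hW'
    exact hW' hz
  refine (Set.Finite.biUnion G.finite_toSet fun i _ => ?_).subset hsub
  rcases i with β' | α'
  · refine (finite_singleton β').subset ?_
    rintro β ⟨-, hne⟩
    rw [e_inr_inl] at hne
    have : e A (some (Sum.inl β)) (Sum.inl β') = true := by simpa using hne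
    rw [e_inl_inl] at this
    exact this.symm
  · by_cases hαα : α' = α
    · subst hαα
      refine finite_empty.subset ?_
      rintro β ⟨hβ, hne⟩
      refine hne ?_
      rw [(e_inl_inr A β α').2 hβ, (e_inr_inr A α' α').2 rfl]
    · refine (fin_inter h1 h2 (Ne.symm hαα)).subset ?_
      rintro β ⟨hβ, hne⟩
      refine ⟨hβ, ?_⟩
      have hf' : e A (some (Sum.inr α)) (Sum.inr α') = false := by
        rw [← Bool.not_eq_true, e_inr_inr]
        exact hαα
      rw [hf'] at hne
      have : e A (some (Sum.inl β)) (Sum.inr α') = true := by simpa using hne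
      rwa [e_inl_inr] at this

/-- a continuous function which vanishes at infinity vanishes at almost all limits of ladders -/
theorem count_nonzero {f : K A → ℝ} (hf : Continuous f) (h0 : f (p A none) = 0) :
    {α | f (p A (some (Sum.inr α))) ≠ 0}.Countable := by
  classical
  have hsub : {α | f (p A (some (Sum.inr α))) ≠ 0} ⊆
      ⋃ n : ℕ, {α | 1 / ((n : ℝ) + 1) ≤ |f (p A (some (Sum.inr α)))|} := by
    intro α hα
    obtain ⟨n, hn⟩ := exists_nat_one_div_lt (abs_pos.mpr hα)
    exact mem_iUnion.mpr ⟨n, hn.le⟩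
  refine (countable_iUnion fun n => ?_).mono hsub
  refine Set.Finite.countable ?_
  have hpos : (0 : ℝ) < 1 / ((n : ℝ) + 1) := by positivity
  have hU : IsOpen {y : K A | |f y| < 1 / ((n : ℝ) + 1)} :=
    isOpen_lt hf.abs continuous_const
  obtain ⟨W, hW, hWU⟩ := isOpen_induced_iff.mp hU
  have hmem : e A none ∈ W := by
    have : p A none ∈ Subtype.val ⁻¹' W := by
      rw [hWU]
      show |f (p A none)| < _
      rw [h0, abs_zero]
      exact hpos
    exact this
  obtain ⟨G, hG⟩ := cyl hW hmem
  refine (G.finite_toSet.preimage (Sum.inr_injective.injOn)).subset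
    (s := Sum.inr ⁻¹' (G : Set (Ω ⊕ Ω))) ?_
  intro α hα
  by_contra hcon
  have hall : ∀ i ∈ G, e A (some (Sum.inr α)) i = e A none i := by
    intro i hi
    rcases i with β | α'
    · rfl
    · rw [e_none, ← Bool.not_eq_true, e_inr_inr]
      rintro rfl
      exact hcon hi
  have hW' : p A (some (Sum.inr α)) ∈ Subtype.val ⁻¹' W := hG _ hall
  rw [hWU] at hW'
  have hα' : 1 / ((n : ℝ) + 1) ≤ |f (p A (some (Sum.inr α)))| := hα
  exact absurd hα' (not_le.mpr hW')

end

end Pool.Agent.Y461.LS
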